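import Mathlib
import Pool.Agent.H.MP_77d395_lc.A

set_option autoImplicit false

namespace Pool.Agent.H.MP_891d8f_lc

open Set Filter Function Order Pool.Agent.H.MP_77d395_lc

/-- `C`-sequences on omega one, given by increasing enumerations -/
def CS (C : I → ℕ → I) : Prop :=
  ∀ α, IsSuccLimit α → StrictMono (C α) ∧ (∀ n, C α n < α) ∧ ∀ β < α, ∃ n, β < C α n

/-- disjoint types of width `n` -/
def DT (n : ℕ) (t : Fin (2 * n) → Bool) : Prop := 1 ≤ n ∧ {i | t i = false}.ncard = n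

/-- the type of the pair `a`, `b` is `t` -/
def Ty {n : ℕ} (a b : Set I) (t : Fin (2 * n) → Bool) : Prop :=
  ∃ e : Fin (2 * n) → I, StrictMono e ∧ a = e '' {i | t i = false} ∧ b = e '' {i | t i = true}

/-- the depth of `t` is at most `d` -/
def Dp {n : ℕ} (t : Fin (2 * n) → Bool) (d : ℕ) : Prop :=
  ∃ c, ∀ i, t i = c → {j | j < i ∧ t j ≠ c}.ncard ≤ d

/-- guessing `C`-sequences -/
def Gs (C : I → ℕ → I) (n : ℕ → ℕ) (t : ∀ k, Fin (2 * n k) → Bool) : Prop :=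
  ∀ f : I → ℕ, ∃ α β k, α < β ∧ IsSuccLimit α ∧ IsSuccLimit β ∧ f α = k ∧ f β = k ∧
    (Ty (C α '' Iio (n k)) (C β '' Iio (n k)) (t k) ∨
      Ty (C α '' Iio (n k)) (C β '' Iio (n k)) fun i => !t k i)

/-- Kunen's interval hitting principle -/
def KA : Prop := ∃ C, CS C ∧ ∀ D : Set I, IsClub D →
  ∃ α, IsSuccLimit α ∧ ∀ᶠ j in atTop, (D ∩ Ioo (C α j) (C α (j + 1))).Nonempty

def tt (k : ℕ) (i : Fin (2 * (k + 2))) : Bool := decide (k < i ∧ i.1 ≠ k + 2)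

theorem ty {a b : ℕ → I} (ha : StrictMono a) (hb : StrictMono b) {k : ℕ}
    (h : Ty (a '' Iio (k + 2)) (b '' Iio (k + 2)) (tt k)) : b 0 ∈ Ioo (a k) (a (k + 1)) := by
  obtain ⟨e, m, p, q⟩ := h
  obtain ⟨i, i1, i2⟩ := p.le ⟨k, by simp, rfl⟩
  obtain ⟨j, j1, j2⟩ := p.le ⟨k + 1, by simp, rfl⟩
  obtain ⟨l, l1, l2⟩ := q.le ⟨0, by simp, rfl⟩
  obtain ⟨u, u1, u2⟩ := p.ge ⟨⟨k + 2, by omega⟩, by simp [tt], rfl⟩
  obtain ⟨v, -, v2⟩ := q.ge ⟨⟨k + 1, by omega⟩, by simp [tt], rfl⟩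
  have : i.1 < j.1 := m.lt_iff_lt.1 (i2.trans_lt ((ha k.lt_succ_self).trans_eq j2.symm))
  simp [tt] at i1 j1 l1 u1
  exact ⟨i2 ▸ l2 ▸ m (show i.1 < l by omega), ((hb.monotone v.zero_le).trans_eq v2).trans_lt
    ((m (by simp)).trans_le (u2.ge.trans (ha.monotone (by omega))))⟩

theorem main (h : ¬ KA) : ∃ (n : ℕ → ℕ) (t : ∀ k, Fin (2 * n k) → Bool),
    (∀ k, DT (n k) (t k) ∧ Dp (t k) 1) ∧ ∀ C, CS C → ¬ Gs C n t := by
  refine ⟨(· + 2), tt, fun k => ⟨⟨Nat.le_add_left _ _, ?_⟩, false, fun i p => ?_⟩, fun C c g => ?_⟩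
  · rw [← ncard_image_of_injective _ Fin.val_injective, show Fin.val '' {i | tt k i = false} =
      insert (k + 2) (Iic k) from ext fun x => ⟨?_, fun p => ⟨⟨x, ?_⟩, ?_, rfl⟩⟩,
      ncard_insert_of_notMem (by simp), ← Finset.coe_Iic, ncard_coe_finset, Nat.card_Iic]
    · rintro ⟨i, p, rfl⟩
      simp [tt] at p ⊢
      omega
    all_goals simp [tt] at p ⊢; omega
  · refine (ncard_le_one (toFinite _)).2 fun a p b q => Fin.ext ?_
    have : a.1 < i := p.1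
    have : b.1 < i := q.1
    simp [tt] at *
    omega
  obtain ⟨D, d1, d2⟩ : ∃ D : Set I, IsClub D ∧ ∀ α, IsSuccLimit α → ∃ᶠ j in atTop,
      ¬ (D ∩ Ioo (C α (2 ^ j)) (C α (2 ^ (j + 1)))).Nonempty := by
    simpa only [not_forall, not_exists, not_and, exists_prop, not_eventually] using not_and.1
      (not_exists.1 h fun α j => C α (2 ^ j)) fun α l => ⟨(c α l).1.comp (pow_right_strictMono₀
        one_lt_two), fun _ => (c α l).2.1 _, fun β p => ((c α l).2.2 β p).imp fun n q =>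
          q.trans ((c α l).1 n.lt_two_pow_self)⟩
  choose m m1 m2 using fun γ => wellFounded_lt.has_min {d ∈ D | γ ≤ d} (d1.2 γ)
  choose e he using fun α => countable_iff_exists_injOn.1 (cI α)
  have : ∀ α, IsSuccLimit α → ∃ i, e (m (C α 0)) (C α 0) < Nat.log 2 i ∧
      ∀ γ ∈ Ioo (C α i) (C α (i + 1)), ¬ e (m γ) γ < Nat.log 2 i := fun α l => by
    obtain ⟨j, j1, j2⟩ := frequently_atTop.1 (d2 α l) (e (m (C α 0)) (C α 0) + 1)
    by_contra! n
    have k : ∀ i ∈ Finset.Ico (2 ^ j) (2 ^ (j + 1)), Nat.log 2 i = j := fun i p =>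
      Nat.log_eq_of_pow_le_of_lt_pow (Finset.mem_Ico.1 p).1 (Finset.mem_Ico.1 p).2
    choose! γ g1 g2 using fun i p => n i ((k i p).symm ▸ j1)
    have s := (c α l).1
    have u : ∀ i ∈ Finset.Ico (2 ^ j) (2 ^ (j + 1)), m (γ i) = m (C α (2 ^ (j + 1))) := fun i p => by
      have a := (g1 i p).2.trans_le (s.monotone (Finset.mem_Ico.1 p).2)
      exact le_antisymm (not_lt.1 (m2 _ _ ⟨(m1 _).1, a.le.trans (m1 _).2⟩)) (not_lt.1 (m2 _ _
        ⟨(m1 _).1, not_lt.1 fun b => j2 ⟨_, (m1 _).1, ((s.monotone (Finset.mem_Ico.1 p).1).trans_lt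
          (g1 i p).1).trans_le (m1 _).2, b⟩⟩))
    have := Finset.card_le_card_of_injOn (t := Finset.range j) (fun i => e (m (γ i)) (γ i))
      (fun i p => Finset.mem_coe.2 (Finset.mem_range.2 (k i p ▸ g2 i p))) fun i p i' q r => by
        have w := he _ (mem_Iic.2 (u i p ▸ (m1 _).2)) (mem_Iic.2 (u i' q ▸ (m1 _).2))
          (by simpa only [u i p, u i' q] using r)
        exact le_antisymm (Nat.le_of_lt_succ (s.lt_iff_lt.1 ((g1 i p).1.trans (w ▸ (g1 i' q).2))))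
          (Nat.le_of_lt_succ (s.lt_iff_lt.1 ((g1 i' q).1.trans (w ▸ (g1 i p).2))))
    have := j.lt_two_pow_self
    simp [pow_succ] at *
    omega
  choose! f f1 f2 using this
  obtain ⟨α, β, k, -, a, b, rfl, q, r | ⟨x, x1, x2, x3⟩⟩ := g f
  · exact f2 α a _ (ty (c α a).1 (c β b).1 r) (q ▸ f1 β b)
  exact f2 β b _ (q.symm ▸ ty (c β b).1 (c α a).1 ⟨x, x1, by simpa using x3, by simpa using x2⟩)
    (q.symm ▸ f1 α a)

end Pool.Agent.H.MP_891d8f_lc
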